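import Pool.Agent.Helper119.KralG

open MeasureTheory Metric Set
open Pool.Agent.Helper119.Kral

namespace Pool.Agent.Results.MP_c751e8_an.KralNullSets

/-- For every continuous non-decreasing `ω : [0,∞) → [0,∞)`, positive on `(0,∞)`, every set of real
numbers of zero Hausdorff `ω`-measure is negligible for subharmonicity of `C^{1,ω}` functions. -/
theorem result (ω : ℝ → ℝ) (hωc : ContinuousOn ω (Ici 0)) (hωm : MonotoneOn ω (Ici 0))
    (hω0 : 0 ≤ ω 0) (_hωpos : ∀ t, 0 < t → 0 < ω t)
    (E : Set ℝ) (hE : gaugeMeasure ω E = 0) :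
    Negligible (C1Omega ω) Subharmonic E :=
  negligible_of_null hωc hωm hω0 hE

end Pool.Agent.Results.MP_c751e8_an.KralNullSets
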