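import Pool.Agent.Helper119.KralG

open MeasureTheory Metric Set
open Pool.Agent.Helper119.Kral

namespace Pool.Agent.Results.MP_c751e8_an.KralSigmaFiniteSets

/-- For every continuous non-decreasing `ω : [0,∞) → [0,∞)`, positive on `(0,∞)`, every set of real
numbers of sigma-finite Hausdorff `ω`-measure is negligible for subharmonicity of functions whose
gradient has modulus of continuity `o(ω)`. -/
theorem result (ω : ℝ → ℝ) (hωc : ContinuousOn ω (Ici 0)) (hωm : MonotoneOn ω (Ici 0))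
    (hω0 : 0 ≤ ω 0) (_hωpos : ∀ t, 0 < t → 0 < ω t)
    (E : Set ℝ) (hE : ∃ A : ℕ → Set ℝ, E ⊆ ⋃ n, A n ∧ ∀ n, gaugeMeasure ω (A n) < ⊤) :
    Negligible (C1OmegaStar ω) Subharmonic E :=
  negligible_of_sigmaFinite hωc hωm hω0 hE

end Pool.Agent.Results.MP_c751e8_an.KralSigmaFiniteSets
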